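import Pool.Agent.Lib.MP_1a91b9_ntDZ.FinV

/-!
# The conjecture of Birch and Swinnerton-Dyer over the elementary abelian extensions, ordered by the discriminant

The elliptic curves over a quadratic field `K` with complex multiplication by an order of `K` and with a
`K`-rational point of order two, and those with `j = 0` and a `K`-rational point of order three, of any rank, over
the extensions `N` of `K` with the Galois group `(ℤ/2)^r`, `(ℤ/3)^r` respectively, ordered by the absolute value of
the discriminant of `N`, over all their subfields, their composites `FN` with a fixed Kummer extension `F` of `K`,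
and over the fields in the towers above them: a positive proportion of all `N` for one curve, at least the
proportion given by the binomial distribution for a finite family of twists, and one hundred per cent of all `N`
for an arbitrary infinite family. For the curves with the L-series not zero at `1` over `F` the conjecture itself is
proved over all these fields: both sides of Q1 are zero, and the `q`-part of Q2 holds for almost all prime numbers
`q`; there is an infinite family of twists such that, for every `F`, all but finitely many of its members are such.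
-/

set_option autoImplicit false

namespace Pool.Agent.Results.MP_1a91b9_nt.DiscriminantLaw

open NumberField IsDedekindDomain Pool.Agent.Lib.MP_1a91b9_nuT.S9 Pool.Agent.Lib.MP_1a91b9_nuT3.S9

/-- The condition on the ramification of `L / F`, for the curve `V` over `F` and the prime number `q`: for every
place `v` of `F` which ramifies in `L`, if `v` is above `q` then the place of `K` below `v` has the norm `q` (it
is not inert), and if `v` is not above `q` and `V` has good reduction at `v` then `q` does not divide the number
of points of the reduction over `𝓞 F / v`. -/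
def RamOK (K : Type) [Field K] [NumberField K] {F : Type} [Field F] [NumberField F] [Algebra K F]
    (V : WeierstrassCurve F) (q : ℕ) (L : Type) [Field L] [NumberField L] [Algebra F L] : Prop :=
  ∀ (v : HeightOneSpectrum (𝓞 F)) (w : HeightOneSpectrum (𝓞 L)),
    v.asIdeal.map (algebraMap (𝓞 F) (𝓞 L)) ≤ w.asIdeal ^ 2 →
      ((q : 𝓞 F) ∈ v.asIdeal →
        Ideal.absNorm (v.asIdeal.comap (algebraMap (𝓞 K) (𝓞 F))) = q) ∧
      ((q : 𝓞 F) ∉ v.asIdeal → ∀ (V₀ : WeierstrassCurve (𝓞 F))
        (C₀ : WeierstrassCurve.VariableChange F),
        C₀ • V = V₀.map (algebraMap (𝓞 F) F) → V₀.Δ ∉ v.asIdeal →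
          ¬ q ∣ Nat.card (V₀.map (Ideal.Quotient.mk v.asIdeal)).toAffine.Point)

open Classical in
/-- The `q`-part of the conjecture in rank zero for the curve `W` over `N`, where all the terms are prime to `q`:
the L-series of `W` over `N` has an entire continuation `g` with `g(1) ≠ 0`, `W(N)` is finite, and
`g(1) √|D| / Ω = r * #Sha[q^∞] * ∏ c_v / #W(N)²` where `D` is the discriminant of `N`, `Ω` is the period of `W`
and `r` is a rational number whose numerator and denominator are prime to `q`; moreover `#Sha[q^∞] = 1`, and all
the Tamagawa numbers `c_v` and `#W(N)` are prime to `q`. -/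
def BSD0 (q : ℕ) [Fact q.Prime] {N : Type} [Field N] [NumberField N] (W : WeierstrassCurve N) : Prop :=
  ∃ g : ℂ → ℂ, Differentiable ℂ g ∧ (∀ s : ℂ, 3 / 2 < s.re → g s = W.LSeries s) ∧
    g 1 ≠ 0 ∧
    (∃ r : ℚ, IsCoprime r.num (q : ℤ) ∧ r.den.Coprime q ∧
      g 1 * (√|(discr N : ℝ)| : ℝ) / (period W : ℝ) =
        (r * ((Nat.card (ShaP q W) : ℝ) * ((∏ᶠ v : HeightOneSpectrum (𝓞 N), tam W v : ℕ) : ℝ) /
          (Nat.card W.toAffine.Point : ℝ) ^ 2) : ℝ)) ∧
    Nat.card (ShaP q W) = 1 ∧ (∀ v : HeightOneSpectrum (𝓞 N), (tam W v).Coprime q) ∧
    Finite W.toAffine.Point ∧ (Nat.card W.toAffine.Point).Coprime q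

open Classical in
/-- The `q`-part of the relative conjecture for the curves `W` over `L` and `W'` over the extension `L'` of `L`
(below `W'` is the base change of `W` to `L'`):

1. the L-series of `W'` is the product of the L-series of `W` and an entire function `g` with `g(1) ≠ 0`;
2. `g(1) (√|D'| / Ω') = r (√|D| / Ω)` where `D`, `D'` are the discriminants of `L` and `L'`, `Ω`, `Ω'` the periods
   of `W` and `W'`, and `r` is a rational number whose numerator and denominator are prime to `q`;
3. `W(L')` and `W(L)` have the same rank, and the index of `W(L)` in `W(L')` is finite and prime to `q`;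
4. all the Tamagawa numbers of `W` and of `W'` are prime to `q`;
5. the `q`-primary parts of the Tate-Shafarevich groups of `W'` and `W` are isomorphic. -/
def RelBSD (q : ℕ) [Fact q.Prime] {L L' : Type} [Field L] [NumberField L] [Field L'] [NumberField L']
    [Algebra L L'] (W : WeierstrassCurve L) (W' : WeierstrassCurve L') : Prop :=
  (∃ g : ℂ → ℂ, Differentiable ℂ g ∧ g 1 ≠ 0 ∧
    (∀ s : ℂ, 3 / 2 < s.re → W'.LSeries s = W.LSeries s * g s) ∧
    ∃ r : ℚ, (IsCoprime r.num (q : ℤ) ∧ r.den.Coprime q) ∧
      g 1 * ((√|(discr L' : ℝ)| / period W' : ℝ) : ℂ) =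
        (r : ℂ) * ((√|(discr L : ℝ)| / period W : ℝ) : ℂ)) ∧
  Module.finrank ℤ W'.toAffine.Point = Module.finrank ℤ W.toAffine.Point ∧
  ((AddSubgroup.closure {P : W'.toAffine.Point | ∃ (x y : L)
    (h : W'.toAffine.Nonsingular (algebraMap L L' x) (algebraMap L L' y)),
    P = WeierstrassCurve.Affine.Point.some _ _ h}).index).Coprime q ∧
  (∀ v : HeightOneSpectrum (𝓞 L), (tam W v).Coprime q) ∧
  (∀ v : HeightOneSpectrum (𝓞 L'), (tam W' v).Coprime q) ∧
  Nonempty (ShaP q W' ≃+ ShaP q W)

/-- The L-series of the curve `W` over `F` has an entire continuation which is not zero at `1`. -/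
def LNonzero {F : Type} [Field F] [NumberField F] (W : WeierstrassCurve F) : Prop :=
  ∃ h : ℂ → ℂ, Differentiable ℂ h ∧ (∀ s : ℂ, 3 / 2 < s.re → h s = W.LSeries s) ∧ h 1 ≠ 0

/-- **The property `Z` of the curve `V` over the extension `F` of `K`**: the L-series of `V` over `F` has an entire
continuation which is not zero at `1`, and `V(F)` is finite (so both sides of Q1 are zero for `V / F`). Moreover
there is a finite set `S` of prime numbers such that for every prime number `q` not in `S`, every Galois extension
`M` of `F` of degree `q ^ k` and every field `L` between `F` and `M` which satisfies the condition `RamOK` on the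
ramification (there is no condition for `L = M = F`) the `q`-part of the conjecture in rank zero holds for every
elliptic curve `W` over a field `N` contained in `L` which becomes isomorphic to `V` over `L` (for example `W = V`,
`N = L = F`). -/
def PropZ (K : Type) [Field K] [NumberField K] {F : Type} [Field F] [NumberField F] [Algebra K F]
    (V : WeierstrassCurve F) : Prop :=
  LNonzero V ∧ Finite V.toAffine.Point ∧ ∃ S : Finset ℕ, ∀ (q : ℕ) [Fact q.Prime], q ∉ S →
    ∀ (k : ℕ) (L M : Type) [Field L] [NumberField L] [Field M] [NumberField M]
      [Algebra F L] [Algebra L M] [Algebra F M] [IsScalarTower F L M] [IsGalois F M],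
      Module.finrank F M = q ^ k → RamOK K V q L →
    ∀ (N : Type) [Field N] [NumberField N] [Algebra N L] (W : WeierstrassCurve N)
      (C : WeierstrassCurve.VariableChange L), C • W.baseChange L = V.baseChange L → BSD0 q W

/-- The twist of `E` by the `p`-th root of `e`, over `F`. For `p = 2` and `E : y² = x³ + a₂ x² + a₄ x` it is the
curve `y² = x³ + a₂ e x² + a₄ e² x`, for `p = 3` and `E : y² + a₃ y = x³` it is the curve `y² + a₃ e y = x³` (the
exponents `2 / p`, `3 / p`, `4 / p` are the integral parts). -/
def tw (p : ℕ) {K : Type} [Field K] (E : WeierstrassCurve K) (F : Type) [Field F] [Algebra K F] (e : K) :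
    WeierstrassCurve F :=
  ⟨0, algebraMap K F (E.a₂ * e ^ (2 / p)), algebraMap K F (E.a₃ * e ^ (3 / p)),
    algebraMap K F (E.a₄ * e ^ (4 / p)), 0⟩

open Classical in
/-- The property (A) of `F' / F` for the curve `E` over `K`: `E(F') = E(F)`, that is, the coordinates of every
point of `E` over `F'` are in `F`. Moreover, if `F = K`:
(A0) if `E` is the curve `y² + 3 y = x³`, then the L-series of `E` over `F'` has an entire continuation `h` with
`h(1) ≠ 0`, and `E(F')` is finite: the order of vanishing and the rank are zero;
(A2) if `E` is the curve `y² = x³ + 4 x² + 2 x` (it has complex multiplication by `ℤ[√-2]`, so `K = ℚ(√-2)` below),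
the curve `y² = x³ - 2 x` (it has complex multiplication by `ℤ[i]`, so `K = ℚ(i)` below) or a curve with `a₃² = -3`
(that is, `y² + a₃ y = x³` below, with `K = ℚ(√-3)`), then the L-series of `E` over `F'` has an entire continuation `h`
with a zero of order two at `1`, and the rank of `E(F')` is two: the order of vanishing and the rank are two. -/
def NoNewPoints {K : Type} [Field K] (E : WeierstrassCurve K) (F F' : Type) [Field F] [Algebra K F]
    [Field F'] [NumberField F'] [Algebra F F'] : Prop :=
  (∀ x' y' : F', ((E.baseChange F).baseChange F').toAffine.Equation x' y' →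
    ∃ x y : F, algebraMap F F' x = x' ∧ algebraMap F F' y = y') ∧
  (Module.finrank K F = 1 →
    (E = ⟨0, 0, 3, 0, 0⟩ →
      (∃ h : ℂ → ℂ, Differentiable ℂ h ∧
        (∀ s : ℂ, 3 / 2 < s.re → h s = ((E.baseChange F).baseChange F').LSeries s) ∧ h 1 ≠ 0) ∧
      Finite ((E.baseChange F).baseChange F').toAffine.Point) ∧
    (E = ⟨0, 4, 0, 2, 0⟩ ∨ E = ⟨0, 0, 0, -2, 0⟩ ∨ E.a₃ ^ 2 = -3 →
      (∃ h : ℂ → ℂ, Differentiable ℂ h ∧
        (∀ s : ℂ, 3 / 2 < s.re → h s = ((E.baseChange F).baseChange F').LSeries s) ∧
        analyticOrderAt h 1 = 2) ∧
      Module.finrank ℤ ((E.baseChange F).baseChange F').toAffine.Point = 2))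

/-- **The property `R` of `e` in `K`**, for the prime number `p`, the curve `E` over `K` and the extension `F` of
`K`. Let `V_i`, `0 < i < p`, be the twist `tw p E F (e ^ i)` of `E` by the `p`-th root of `e ^ i`. Then
(1) each of the curves `V_i` over `F` has the property `Z`;
(2) there is a finite set `S` of prime numbers such that for every prime number `q` not in `S`, every Galois
extension `M` of `F` of degree `q ^ k`, every field `L` between `F` and `M` which satisfies the condition `RamOK` on
the ramification for all the `V_i` and `q` (there is no condition for `L = M = F`) and every field `L'` which is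
generated over `L` by a `p`-th root of `e` the `q`-part of the relative conjecture holds for `E` over `L` and over
`L'`. -/
def PropR (p : ℕ) {K : Type} [Field K] [NumberField K] (E : WeierstrassCurve K) (F : Type) [Field F]
    [NumberField F] [Algebra K F] (e : K) : Prop :=
  (∀ i, 0 < i → i < p → PropZ K (tw p E F (e ^ i))) ∧
  ∃ S : Finset ℕ, ∀ (q : ℕ) [Fact q.Prime], q ∉ S →
    ∀ (k : ℕ) (L M : Type) [Field L] [NumberField L] [Field M] [NumberField M]
      [Algebra F L] [Algebra L M] [Algebra F M] [IsScalarTower F L M] [IsGalois F M],
      Module.finrank F M = q ^ k → (∀ i, 0 < i → i < p → RamOK K (tw p E F (e ^ i)) q L) →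
    ∀ (L' : Type) [Field L'] [NumberField L'] [Algebra L L'] (y : L'),
      y ^ p = algebraMap L L' (algebraMap F L (algebraMap K F e)) →
      IntermediateField.adjoin L {y} = ⊤ →
      RelBSD q ((E.baseChange F).baseChange L) (((E.baseChange F).baseChange L).baseChange L')

/-- **The property `M` of the extension `N` of `K`**, for the prime number `p`, the curve `E` over `K` and the
extension `F` of `K`: every composite `M = FN` of `F` and `N` has the degree `[N : K]` over `F`, and for every
field `F'` between `F` and `M` the following holds.

1. `E(F') = E(F)`, in the form of the property (A) above.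
2. The L-series of `E` over `F'` is the product of the L-series of `E` over `F` and an entire function `g` with
   `g(1) ≠ 0`.
3. If the L-series of `E` over `F` has an entire continuation which is not zero at `1` then `E` over `F'` has the
   property `Z`.
4. For every field `F''` between `F'` and `M` different from `F'` there is a finite set `S` of prime numbers such
   that for every prime number `q` not in `S` the `q`-part of the relative conjecture holds for `E` over `F'` and
   over `F''`.
5. Every element `e` of `K` which is a `p`-th power in `N` and not a `p`-th power in `F'` has the property `R` over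
   `F'`, that is, with `F'` in the place of `F`. -/
def PropM (p : ℕ) {K : Type} [Field K] [NumberField K] (E : WeierstrassCurve K) (F : Type) [Field F]
    [NumberField F] [Algebra K F] (N : Type) [Field N] [Algebra K N] : Prop :=
  ∀ (M : Type) [Field M] [NumberField M] [Algebra K M] [Algebra F M] [IsScalarTower K F M]
    [Algebra N M] [IsScalarTower K N M],
    IntermediateField.adjoin F (Set.range (algebraMap N M)) = ⊤ →
    Module.finrank F M = Module.finrank K N ∧
    ∀ (F' : Type) [Field F'] [NumberField F'] [Algebra K F'] [Algebra F F'] [IsScalarTower K F F']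
      [Algebra F' M] [IsScalarTower F F' M],
      NoNewPoints E F F' ∧
      (∃ g : ℂ → ℂ, Differentiable ℂ g ∧ g 1 ≠ 0 ∧ ∀ s : ℂ, 3 / 2 < s.re →
        (E.baseChange F').LSeries s = (E.baseChange F).LSeries s * g s) ∧
      (LNonzero (E.baseChange F) → PropZ K (E.baseChange F')) ∧
      (∀ (F'' : Type) [Field F''] [NumberField F''] [Algebra F F''] [Algebra F' F'']
        [IsScalarTower F F' F''] [Algebra F'' M] [IsScalarTower F' F'' M],
        Module.finrank F' F'' ≠ 1 →
        ∃ S : Finset ℕ, ∀ (q : ℕ) [Fact q.Prime], q ∉ S →
          RelBSD q (E.baseChange F') ((E.baseChange F').baseChange F'')) ∧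
      ∀ e : K, (∃ x : N, x ^ p = algebraMap K N e) → (¬ ∃ y : F', y ^ p = algebraMap K F' e) →
        PropR p E F' e

open Classical in
/-- The constant `c`. For `p = 3` it is `∏ (1 + 1 / 3 ^ (i + 1))⁻¹ = 0.639...`. For `p = 2` it is
`∏ (1 + 1 / 2 ^ (i + 1))⁻¹ = 0.419...` if `2` is ramified in `K`, `∏ (1 - 1 / 2 ^ (i + 1)) = 0.288...` if `2`
splits, and if `2` is inert it is `c₁ = ∏ (1 + 1 / 2 ^ (2 i + 1))⁻¹ = 0.568...`, or `√(c₁ / 2) = 0.533...` if `√-1`
is in `F`. -/
noncomputable def cst (p : ℕ) (K F : Type) [Field K] [NumberField K] [Field F] : ℝ :=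
  if p = 3 then ∏' i : ℕ, (1 + 1 / (3 : ℝ) ^ (i + 1))⁻¹ else
  if Prime (2 : 𝓞 K) then (if ∃ x : F, x ^ 2 = -1 then
      √((∏' i : ℕ, (1 + 1 / (2 : ℝ) ^ (2 * i + 1))⁻¹) / 2) else
      ∏' i : ℕ, (1 + 1 / (2 : ℝ) ^ (2 * i + 1))⁻¹) else
    if Squarefree (2 : 𝓞 K) then ∏' i : ℕ, (1 - 1 / (2 : ℝ) ^ (i + 1)) else
    ∏' i : ℕ, (1 + 1 / (2 : ℝ) ^ (i + 1))⁻¹

/-- The elements `δ`, `δ'` of `K` are separated over `F`: for `p = 2` none of `± δ / δ'`, `± a₄ δ / δ'` is a square
in `F`, for `p = 3` none of `a₃ δ`, `δ / δ'`, `a₃² δ δ'` is a cube in `F`. -/
def Sep (p : ℕ) {K : Type} [Field K] (E : WeierstrassCurve K) (F : Type) [Field F] [Algebra K F]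
    (δ δ' : K) : Prop :=
  ∀ x : F,
    (p = 2 → ∀ e ∈ ({1, -1, E.a₄, -E.a₄} : Set K),
      x ^ 2 * algebraMap K F δ' ≠ algebraMap K F (e * δ)) ∧
    (p = 3 → x ^ 3 ≠ algebraMap K F (E.a₃ * δ) ∧ x ^ 3 * algebraMap K F δ' ≠ algebraMap K F δ ∧
      x ^ 3 ≠ algebraMap K F (E.a₃ ^ 2 * δ * δ'))

open scoped TensorProduct in
open Classical in
/-- Let `K` be a quadratic number field and `E` an elliptic curve over `K`, in one of the following two cases.

`p = 2`: `E` is `y² = x³ + a₂ x² + a₄ x` and it has complex multiplication by an order of `K`: its invariant `j` is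
one of the 13 rational invariants of curves with complex multiplication and `√D` is in `K`, where `D` belongs to
`j`. Up to isomorphism over `K` these are the elliptic curves over `K` with complex multiplication by an order of
`K` and with a `K`-rational point of order two.

`p = 3`: `K` contains `√-3` and `E` is `y² + a₃ y = x³`. Up to isomorphism over `K` these are the elliptic curves
over `K` with `j = 0` (they have complex multiplication by the ring of integers of `K`) and with a `K`-rational
point of order three.

For `δ ≠ 0` in `K` let `E^δ` be the curve `tw p E K δ`, that is, `y² = x³ + a₂ δ x² + a₄ δ² x` for `p = 2` and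
`y² + a₃ δ y = x³` for `p = 3`; `E^1 = E`.

Below `F` is a number field which is generated over `K` by `p`-th roots of elements of `K`, or by fourth roots if
`p = 2` and `i` is in `K` (for example `F = K`).

The property `M` of an extension `N` of `K` for one of the curves `E^δ` is `PropM` above (with `E^δ` in the place
of `E`): `FN` has the degree `[N : K]` over `F`; for every field `F'` between `F` and `FN` we have `E(F') = E(F)`,
and the L-series of `E` over `F'` is that of `E` over `F` times an entire function which is not zero at `1`; if
the L-series of `E` over `F` is not zero at `1` then `E` over `F'` has the property `Z`: the L-series of `E` over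
`F'` is entire and not zero at `1`, `E(F')` is finite, and for almost all prime numbers `q` the `q`-part of the
conjecture holds for `E` over `F'` and in the towers over `F'` described there; if `F = K` then the order of
vanishing of the L-series at `1` and the rank over `F'` are both two for `y² ± √-3 y = x³` (`K = ℚ(√-3)`), for
`y² = x³ + 4 x² + 2 x` (`K = ℚ(√-2)`) and for `y² = x³ - 2 x` (`K = ℚ(i)`), unconditionally; for all fields `F' ≠ F''`
between, `F'` in `F''`, the `q`-part of the relative conjecture holds for `E` over `F'` and `F''` for almost all prime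
numbers `q`; and every element `e` of `K` which is a `p`-th power in `N` but not in `F'` has the property `R` over
`F'`: the twists of `E` by the `p`-th roots of `e, …, e ^ (p - 1)` have the property `Z` over `F'`, and for all prime
numbers `q` outside a finite set and all the fields `L` in the towers over `F'` described there (for example `L = F'`)
the `q`-part of the relative conjecture holds for `E` over `L` and over `L` with a `p`-th root of `e`.

**(1) The law.** Let `F` be as above and let `r` be a natural number. Let `T` be a finite or infinite set of elements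
`δ ≠ 0` of `K` such that `δ / δ'` is not a `p`-th power in `K` for `δ ≠ δ'` in `T`; if `T` is finite suppose moreover
that any two different elements of `T` are separated over `F` (`Sep` above; for `T = {1}` this is no condition). Let
`t` be a positive integer. Let `C` be a set of extensions `N` of `K` which is given by conditions at `p` only:
whether `N` is in `C` depends only on the algebras `K_v ⊗ N` over the completions `K_v` of `K` at the places
`v` above `p`; for example `C` is the set of all the extensions, or of those for which all the `K_v ⊗ N` are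
isomorphic to given algebras. Suppose that `C` contains at least one extension with the Galois group `(ℤ/p)^r`.
Then for every `ε > 0` and all sufficiently large `X`, among all the Galois extensions `N` of `K` in the
algebraic closure of `K` with the Galois group `(ℤ/p)^r` which are in `C` and for which the absolute value of the
discriminant of `N` is at most `X` the proportion of those which have the property `M` for at least `t` of the
curves `E^δ`, `δ` in `T`, is at least `v - ε`. Here `v = 1` if `T` is infinite: this is the case for one hundred per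
cent of all `N`. If `T` is finite then `v` is the probability of at least `t` successes in `#T` independent trials
with the probability `c ^ ((p ^ r - 1) [F : K])` each, where `c` is the constant `cst` above; for `T = {1}` and
`t = 1` it is `c ^ ((p ^ r - 1) [F : K])`. (The sets of `N` are finite, and for large `X` the second one is not
empty; for `v > 0` this is part of the statement, as otherwise the quotient below is zero.)

**(2) The unconditional case.** There is an infinite set `T` of elements `δ ≠ 0` of `K`, pairwise different modulo
`p`-th powers of `K` (so it is as in (1) for every `F`), such that for every `F` as above all but finitely many of the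
curves `E^δ`, `δ` in `T`, have the property `Z` over `F`: both sides of Q1 are zero for `E^δ` over `F`, and the
`q`-part of Q2 holds for `E^δ` over `F` for almost all prime numbers `q`. (For example `F` may be any finite abelian
extension of `K` whose Galois group has the exponent `p`, or `4` if `p = 2` and `i` is in `K`: by Kummer theory it is
generated by such roots.) By (1) for this `T` without the finitely many exceptions and the third part of the property
`M`, for every `t`, for one hundred per cent of all `N` (also of all `N` in `C`) at least `t` of the curves `E^δ`, `δ`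
in `T`, have the property `M` and the property `Z` over all the fields `F'` between `F` and `FN`. -/
theorem result (p : ℕ) (K : Type) [Field K] [NumberField K] (hK : Module.finrank ℚ K = 2)
    (E : WeierstrassCurve K) (hΔ : E.Δ ≠ 0) (h₁ : E.a₁ = 0) (h₆ : E.a₆ = 0)
    (hE : (p = 2 ∧ E.a₃ = 0 ∧ ∃ j D : ℤ,
        (j, D) ∈ [(0, -3), (54000, -3), (-12288000, -3), (1728, -4), (287496, -4), (-3375, -7),
          (16581375, -7), (8000, -8), (-32768, -11), (-884736, -19), (-884736000, -43),
          (-147197952000, -67), (-262537412640768000, -163)] ∧
        E.c₄ ^ 3 = j * E.Δ ∧ ∃ s : K, s ^ 2 = D) ∨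
      (p = 3 ∧ E.a₂ = 0 ∧ E.a₄ = 0 ∧ ∃ s : K, s ^ 2 = -3))
    (l : ℕ) (hl : l = p ∨ p = 2 ∧ l = 4 ∧ ∃ i : K, i ^ 2 = -1) :
    (∀ (F : Type) [Field F] [NumberField F] [Algebra K F],
      IntermediateField.adjoin K {x : F | ∃ c : K, x ^ l = algebraMap K F c} = ⊤ →
      ∀ (r : ℕ) (T : Set K), 0 ∉ T →
      (∀ δ ∈ T, ∀ δ' ∈ T, δ ≠ δ' → (∀ x : K, x ^ p * δ' ≠ δ) ∧ (T.Finite → Sep p E F δ δ')) →
      ∀ t : ℕ, 0 < t → ∀ C : Set (IntermediateField K (AlgebraicClosure K)),
      (∃ N ∈ C, IsGalois K N ∧ Nonempty ((N ≃ₐ[K] N) ≃* Multiplicative (Fin r → ZMod p))) →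
      (∀ N N' : IntermediateField K (AlgebraicClosure K),
        (∀ v : HeightOneSpectrum (𝓞 K), (p : 𝓞 K) ∈ v.asIdeal →
          Nonempty (v.adicCompletion K ⊗[K] N ≃ₐ[v.adicCompletion K] v.adicCompletion K ⊗[K] N')) →
        N ∈ C → N' ∈ C) →
      ∀ v : ℝ, (v = if T.Infinite then 1 else ∑ j ∈ Finset.Icc t T.ncard, (T.ncard.choose j : ℝ) *
        (cst p K F ^ ((p ^ r - 1) * Module.finrank K F)) ^ j *
          (1 - cst p K F ^ ((p ^ r - 1) * Module.finrank K F)) ^ (T.ncard - j)) →
      ∀ ε : ℝ, 0 < ε → ∀ᶠ X : ℝ in Filter.atTop, v - ε ≤
        (Nat.card {N : IntermediateField K (AlgebraicClosure K) //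
          (IsGalois K N ∧ Nonempty ((N ≃ₐ[K] N) ≃* Multiplicative (Fin r → ZMod p))) ∧ N ∈ C ∧
          (∃ _ : NumberField N, |(discr N : ℝ)| ≤ X) ∧
          t ≤ {δ ∈ T | PropM p (tw p E K δ) F N}.encard} : ℝ) /
        (Nat.card {N : IntermediateField K (AlgebraicClosure K) //
          (IsGalois K N ∧ Nonempty ((N ≃ₐ[K] N) ≃* Multiplicative (Fin r → ZMod p))) ∧ N ∈ C ∧
          ∃ _ : NumberField N, |(discr N : ℝ)| ≤ X} : ℝ)) ∧
    ∃ T : Set K, T.Infinite ∧ 0 ∉ T ∧ (∀ δ ∈ T, ∀ δ' ∈ T, δ ≠ δ' → ∀ x : K, x ^ p * δ' ≠ δ) ∧
      ∀ (F : Type) [Field F] [NumberField F] [Algebra K F],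
        IntermediateField.adjoin K {x : F | ∃ c : K, x ^ l = algebraMap K F c} = ⊤ →
        ∃ S : Set K, S.Finite ∧ ∀ δ ∈ T \ S, PropZ K ((tw p E K δ).baseChange F) :=
  Pool.Agent.Lib.MP_1a91b9_ntDZ.finV p K hK E hΔ h₁ h₆ hE l hl

end Pool.Agent.Results.MP_1a91b9_nt.DiscriminantLaw
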