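import Pool.Agent.Lib.MP_1a91b9_ntQH.R4.Fin
import Pool.Agent.Lib.MP_1a91b9_ntQH.V3

/-!
# The conjecture of Birch and Swinnerton-Dyer over the abelian extensions of exponent four

The elliptic curves `E : y² = x³ + A x` over `K = ℚ(i)` (they are the elliptic curves over `K` with complex
multiplication by `ℤ[i]`), over almost all or a positive proportion of the abelian extensions `N` of `K` with a given
Galois group of exponent dividing four, ordered by the absolute value of the discriminant of `N`, over their
intermediate fields, and over the fields in the towers above them.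
-/

set_option autoImplicit false

namespace Pool.Agent.Results.MP_1a91b9_nt.ExponentFourLaw

open NumberField IsDedekindDomain Pool.Agent.Lib.MP_1a91b9_nuT.S9 Pool.Agent.Lib.MP_1a91b9_nuT3.S9

/-- The condition on the ramification of `L / F`, for the curve `V` over `F` and the prime number `q`: for every
place `v` of `F` which ramifies in `L`, if `v` is above `q` then the place of `K` below `v` has the norm `q` (it
is not inert), and if `v` is not above `q` and `V` has good reduction at `v` then `q` does not divide the number
of points of the reduction over `𝓞 F / v`. -/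
def RamOK (K : Type) [Field K] [NumberField K] {F : Type} [Field F] [NumberField F] [Algebra K F]
    (V : WeierstrassCurve F) (q : ℕ) (L : Type) [Field L] [NumberField L] [Algebra F L] : Prop :=
  ∀ (v : HeightOneSpectrum (𝓞 F)) (w : HeightOneSpectrum (𝓞 L)),
    v.asIdeal.map (algebraMap (𝓞 F) (𝓞 L)) ≤ w.asIdeal ^ 2 →
      ((q : 𝓞 F) ∈ v.asIdeal →
        Ideal.absNorm (v.asIdeal.comap (algebraMap (𝓞 K) (𝓞 F))) = q) ∧
      ((q : 𝓞 F) ∉ v.asIdeal → ∀ (V₀ : WeierstrassCurve (𝓞 F))
        (C₀ : WeierstrassCurve.VariableChange F),
        C₀ • V = V₀.map (algebraMap (𝓞 F) F) → V₀.Δ ∉ v.asIdeal →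
          ¬ q ∣ Nat.card (V₀.map (Ideal.Quotient.mk v.asIdeal)).toAffine.Point)

open Classical in
/-- The `q`-part of the conjecture in rank zero for the curve `W` over `N`, where all the terms are prime to `q`:
the L-series of `W` over `N` has an entire continuation `g` with `g(1) ≠ 0`, `W(N)` is finite, and
`g(1) √|D| / Ω = r * #Sha[q^∞] * ∏ c_v / #W(N)²` where `D` is the discriminant of `N`, `Ω` is the period of `W`
and `r` is a rational number whose numerator and denominator are prime to `q`; moreover `#Sha[q^∞] = 1`, and all
the Tamagawa numbers `c_v` and `#W(N)` are prime to `q`. -/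
def BSD0 (q : ℕ) [Fact q.Prime] {N : Type} [Field N] [NumberField N] (W : WeierstrassCurve N) : Prop :=
  ∃ g : ℂ → ℂ, Differentiable ℂ g ∧ (∀ s : ℂ, 3 / 2 < s.re → g s = W.LSeries s) ∧
    g 1 ≠ 0 ∧
    (∃ r : ℚ, IsCoprime r.num (q : ℤ) ∧ r.den.Coprime q ∧
      g 1 * (√|(discr N : ℝ)| : ℝ) / (period W : ℝ) =
        (r * ((Nat.card (ShaP q W) : ℝ) * ((∏ᶠ v : HeightOneSpectrum (𝓞 N), tam W v : ℕ) : ℝ) /
          (Nat.card W.toAffine.Point : ℝ) ^ 2) : ℝ)) ∧
    Nat.card (ShaP q W) = 1 ∧ (∀ v : HeightOneSpectrum (𝓞 N), (tam W v).Coprime q) ∧
    Finite W.toAffine.Point ∧ (Nat.card W.toAffine.Point).Coprime q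

open Classical in
/-- The `q`-part of the relative conjecture for the curves `W` over `L` and `W'` over the extension `L'` of `L`
(below `W'` is the base change of `W` to `L'`):

1. the L-series of `W'` is the product of the L-series of `W` and an entire function `g` with `g(1) ≠ 0`;
2. `g(1) (√|D'| / Ω') = r (√|D| / Ω)` where `D`, `D'` are the discriminants of `L` and `L'`, `Ω`, `Ω'` the periods
   of `W` and `W'`, and `r` is a rational number whose numerator and denominator are prime to `q`;
3. `W(L')` and `W(L)` have the same rank, and the index of `W(L)` in `W(L')` is finite and prime to `q`;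
4. all the Tamagawa numbers of `W` and of `W'` are prime to `q`;
5. the `q`-primary parts of the Tate-Shafarevich groups of `W'` and `W` are isomorphic. -/
def RelBSD (q : ℕ) [Fact q.Prime] {L L' : Type} [Field L] [NumberField L] [Field L'] [NumberField L']
    [Algebra L L'] (W : WeierstrassCurve L) (W' : WeierstrassCurve L') : Prop :=
  (∃ g : ℂ → ℂ, Differentiable ℂ g ∧ g 1 ≠ 0 ∧
    (∀ s : ℂ, 3 / 2 < s.re → W'.LSeries s = W.LSeries s * g s) ∧
    ∃ r : ℚ, (IsCoprime r.num (q : ℤ) ∧ r.den.Coprime q) ∧
      g 1 * ((√|(discr L' : ℝ)| / period W' : ℝ) : ℂ) =
        (r : ℂ) * ((√|(discr L : ℝ)| / period W : ℝ) : ℂ)) ∧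
  Module.finrank ℤ W'.toAffine.Point = Module.finrank ℤ W.toAffine.Point ∧
  ((AddSubgroup.closure {P : W'.toAffine.Point | ∃ (x y : L)
    (h : W'.toAffine.Nonsingular (algebraMap L L' x) (algebraMap L L' y)),
    P = WeierstrassCurve.Affine.Point.some _ _ h}).index).Coprime q ∧
  (∀ v : HeightOneSpectrum (𝓞 L), (tam W v).Coprime q) ∧
  (∀ v : HeightOneSpectrum (𝓞 L'), (tam W' v).Coprime q) ∧
  Nonempty (ShaP q W' ≃+ ShaP q W)

/-- **The property `S` of the elliptic curve `V` over the extension `F` of `K`** (the conjecture in the towers above
`F`, rank zero). There is a finite set `S` of prime numbers such that for every prime number `q` not in `S`, every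
Galois extension `M` of `F` of degree `q ^ k` and every field `L` between `F` and `M` which satisfies the condition
`RamOK` on the ramification for `V` and `q` (there is no condition for `L = M = F`) the following holds: for every
field `N` contained in `L` and every elliptic curve `W` over `N` which becomes isomorphic to `V` over `L` the `q`-part
of the conjecture holds for `W` over `N` (for example for `W = V`, `N = L = F`). -/
def PropS (K : Type) [Field K] [NumberField K] {F : Type} [Field F] [NumberField F] [Algebra K F]
    (V : WeierstrassCurve F) : Prop :=
  ∃ S : Finset ℕ, ∀ (q : ℕ) [Fact q.Prime], q ∉ S →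
    ∀ (k : ℕ) (L M : Type) [Field L] [NumberField L] [Field M] [NumberField M]
      [Algebra F L] [Algebra L M] [Algebra F M] [IsScalarTower F L M] [IsGalois F M],
      Module.finrank F M = q ^ k → RamOK K V q L →
    ∀ (N : Type) [Field N] [NumberField N] [Algebra N L] (W : WeierstrassCurve N)
      (C : WeierstrassCurve.VariableChange L), C • W.baseChange L = V.baseChange L → BSD0 q W

/-- **The property `R` of the element `e` of `F`**, for the curve `E : y² = x³ + A x` over `K` and the extension `F` of
`K`. Let `V : y² = x³ + A e² x` be the twist of `E` by `√e`. Then `V` has the property `S` over `F`, and there is a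
finite set `S` of prime numbers such that for every prime number `q` not in `S`, every Galois extension `M` of `F` of
degree `q ^ k` and every field `L` between `F` and `M` which satisfies the condition `RamOK` for `V` and `q` (there is
no condition for `L = M = F`) the `q`-part of the relative conjecture holds for `E` over `L` and over every field
`L' = L(√e)`. -/
def PropR {K : Type} [Field K] [NumberField K] (E : WeierstrassCurve K) (F : Type) [Field F]
    [NumberField F] [Algebra K F] (e : F) : Prop :=
  ∀ V : WeierstrassCurve F, V = ⟨0, 0, 0, algebraMap K F E.a₄ * e ^ 2, 0⟩ →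
    PropS K V ∧
    ∃ S : Finset ℕ, ∀ (q : ℕ) [Fact q.Prime], q ∉ S →
    ∀ (k : ℕ) (L M : Type) [Field L] [NumberField L] [Field M] [NumberField M]
      [Algebra F L] [Algebra L M] [Algebra F M] [IsScalarTower F L M] [IsGalois F M],
      Module.finrank F M = q ^ k → RamOK K V q L →
    ∀ (L' : Type) [Field L'] [NumberField L'] [Algebra L L'] (y : L'),
      y ^ 2 = algebraMap L L' (algebraMap F L e) → IntermediateField.adjoin L {y} = ⊤ →
      RelBSD q ((E.baseChange F).baseChange L) (((E.baseChange F).baseChange L).baseChange L')

/-- The Galois extensions `N` of `K`, contained in the algebraic closure of `K`, with the Galois group `G`. -/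
def Ext (K : Type) [Field K] (G : Type) [Group G] : Set (IntermediateField K (AlgebraicClosure K)) :=
  {N | IsGalois K N ∧ Nonempty ((N ≃ₐ[K] N) ≃* G)}

/-- `N` is a number field and the absolute value of its discriminant is at most `X`. -/
def DiscLe {K : Type} [Field K] (N : IntermediateField K (AlgebraicClosure K)) (X : ℝ) : Prop :=
  ∃ _ : NumberField N, |(discr N : ℝ)| ≤ X

/-- The curve `W` has the property `S` over every field `P` between `K` and `N` (`P = K` and `P = N` included). In
particular, with `L = M = P` in the definition of the property `S`, for every such `P`: the L-series of `W` over `P` is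
not zero at `1`, `W(P)` is finite, and the `q`-part of the conjecture holds for `W` over `P` for almost all `q`. -/
def AllS {K : Type} [Field K] [NumberField K] (W : WeierstrassCurve K) (N : Type) [Field N] [Algebra K N] :
    Prop :=
  ∀ (P : Type) [Field P] [NumberField P] [Algebra K P] [Algebra P N] [IsScalarTower K P N],
    PropS K (W.baseChange P)

/-- **The property `P` of the field `P` between `K` and `N`**, for the curve `E : y² = x³ + A x` over `K`.

1. For every field `P'` with `P ⊆ P' ⊆ N`: `E(P') = E(P)` (the coordinates of every point over `P'` are in `P`); the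
   L-series of `E` over `P'` is the product of the L-series of `E` over `P` and an entire function `g` with
   `g(1) ≠ 0`; and if `P' ≠ P` then there is a finite set `S` of prime numbers such that for every prime number `q` not
   in `S` the `q`-part of the relative conjecture holds for `E` over `P` and over `P'`.
2. If `e` is in `P`, is not a square in `P` and is a square in `N`, then `e` has the property `R` over `P`. So, with
   `L = M = P`, the `q`-part of the conjecture (rank zero) holds for almost all `q` for the twist of `E` by the square
   root of `e` over `P`.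
3. If the L-series of `E` over `P` has an entire continuation which is not zero at `1` then `E` has the property `S`
   over all the fields between `K` and `N`. -/
def PropP {K : Type} [Field K] [NumberField K] (E : WeierstrassCurve K) (N : Type) [Field N] [Algebra K N]
    (P : Type) [Field P] [NumberField P] [Algebra K P] [Algebra P N] : Prop :=
  (∀ (P' : Type) [Field P'] [NumberField P'] [Algebra K P'] [Algebra P P'] [IsScalarTower K P P']
    [Algebra P' N] [IsScalarTower P P' N],
    (∀ x' y' : P', (E.baseChange P').toAffine.Equation x' y' →
      ∃ x y : P, algebraMap P P' x = x' ∧ algebraMap P P' y = y') ∧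
    (∃ g : ℂ → ℂ, Differentiable ℂ g ∧ g 1 ≠ 0 ∧ ∀ s : ℂ, 3 / 2 < s.re →
      (E.baseChange P').LSeries s = (E.baseChange P).LSeries s * g s) ∧
    (Module.finrank P P' ≠ 1 → ∃ S : Finset ℕ, ∀ (q : ℕ) [Fact q.Prime], q ∉ S →
      RelBSD q (E.baseChange P) ((E.baseChange P).baseChange P'))) ∧
  (∀ e : P, ¬ IsSquare e → (∃ x : N, x ^ 2 = algebraMap P N e) → PropR E P e) ∧
  ((∃ g : ℂ → ℂ, Differentiable ℂ g ∧ (∀ s : ℂ, 3 / 2 < s.re → g s = (E.baseChange P).LSeries s) ∧
    g 1 ≠ 0) → AllS E N)

open Classical in
/-- The first question for the elliptic curve `W` over the number field `P`, both sides being two: the L-series of `W`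
over `P` has an entire continuation whose order of vanishing at `1` is exactly two, and the rank of `W(P)` is two. -/
def Rank2 {P : Type} [Field P] [NumberField P] (W : WeierstrassCurve P) : Prop :=
  (∃ g : ℂ → ℂ, Differentiable ℂ g ∧ (∀ s : ℂ, 3 / 2 < s.re → g s = W.LSeries s) ∧
    analyticOrderAt g 1 = 2) ∧
  Module.finrank ℤ W.toAffine.Point = 2

/-- **The property `A` of the extension `N` of `K`**, for the curve `E`. Every field `P` between `K` and `N` (`P = K`
and `P = N` included) has the property `P`; in particular (`P = K`): `E(N) = E(K)`, the L-series of `E` over `N` is that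
of `E` over `K` times an entire function which is not zero at `1` (so, if the order of the L-series at `1` is the rank
for `E` over `K`, then also for `E` over `N`), and the `q`-part of the relative conjecture holds for `E` over `K` and `N`
for almost all `q`. Moreover there are two unconditional cases. If `E` is the curve `y² = x³ + x`, then `E` has the
property `S` over all the fields between `K` and `N` (the hypothesis of the clause 3 of the property `P` is then true for
`P = K`). And if `E` is the curve `y² = x³ - 2 x`, then over every field `P` between `K` and `N` (`P = K` and `P = N`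
included) the order of vanishing at `1` of the L-series of `E` and the rank of `E(P)` are both equal to two. -/
def PropA {K : Type} [Field K] [NumberField K] (E : WeierstrassCurve K) (N : Type) [Field N] [Algebra K N] :
    Prop :=
  (∀ (P : Type) [Field P] [NumberField P] [Algebra K P] [Algebra P N] [IsScalarTower K P N], PropP E N P) ∧
  (E = ⟨0, 0, 0, 1, 0⟩ → AllS E N) ∧
  (E = ⟨0, 0, 0, -2, 0⟩ → ∀ (P : Type) [Field P] [NumberField P] [Algebra K P] [Algebra P N]
    [IsScalarTower K P N], Rank2 (E.baseChange P))

/-- **The property `N` of the extension `N` of `K`**, for the curve `E`. The extension is abelian and its Galois group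
`G` has exponent dividing four. Let `N₀` be the subfield of `N` fixed by all the elements `σ` of `G` with `σ² = 1`. The
extension `N / N₀` has the Galois group `(ℤ/2)^r`, where `r` is the least number of generators of `G`; `N₀` is the
field `K` if `G` has exponent two, it is the quadratic extension of `K` in `N` if `G = ℤ/4`, and it is the compositum
of the quadratic extensions of `K` in `N` if `G = (ℤ/4)^r`. Every field `P` with `N₀ ⊆ P ⊆ N` (that is: all the
elements of the Galois group of `N` over `P` have the square `1`) has the property `P`. -/
def PropN {K : Type} [Field K] [NumberField K] (E : WeierstrassCurve K) (N : Type) [Field N] [Algebra K N] :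
    Prop :=
  ∀ (P : Type) [Field P] [NumberField P] [Algebra K P] [Algebra P N] [IsScalarTower K P N],
    (∀ σ : N ≃ₐ[P] N, σ * σ = 1) → PropP E N P

/-- Let `K` be a quadratic number field which contains `i`, that is `K = ℚ(i)`. The elliptic curves over `K` which
have complex multiplication by the ring of integers are the curves `E_A : y² = x³ + A x`, and the quadratic twist of
`E_A` by `δ` is the curve `y² = x³ + A δ² x`. Let `G` be any finite abelian group whose exponent divides four. We
consider all the Galois extensions `N` of `K` with the Galois group `G`, ordered by the absolute value of the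
discriminant of `N`.

For such an extension let `N₀` be the subfield of `N` fixed by all the `σ` in `G` with `σ² = 1` (for `G = ℤ/4` the
quadratic extension of `K` in `N`; for `G = (ℤ/2)^r` the field `K`). The property `N`, for the curve `E`, is `PropN`
above: for all fields `P`, `P'` with `N₀ ⊆ P ⊆ P' ⊆ N` we have `E(P') = E(P)`, the L-series of `E` over `P'` is that of
`E` over `P` times an entire function which is not zero at `1`, and the `q`-part of the relative conjecture holds for
`E` over `P` and `P'` for almost all prime numbers `q`; the same relative statement, together with the `q`-part of the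
conjecture for the twist of `E` by the square root of `e` (rank zero), holds in the towers over `P` described there, for
every `e` in `P`, not a square in `P`, which becomes a square in `N`; and if the L-series of `E` over `P` is not zero at
`1` then the same holds over all the fields between `K` and `N`, and the `q`-part of the conjecture (rank zero) holds
for `E` over all these fields and in the towers above them. The stronger property `A` (`PropA`) says the same for all
the fields `P`, `P'` with `K ⊆ P ⊆ P' ⊆ N`: in particular `E(N) = E(K)`, the L-series of `E` over `N` is that of `E`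
over `K` times an entire function which is not zero at `1`, and if the L-series of `E` over `K` is not zero at `1` (for
example for `y² = x³ + x`) then the `q`-part of the conjecture (rank zero) holds over all the fields between `K` and `N`
for almost all `q`; and for the curve `y² = x³ - 2 x` it says that the order of vanishing at `1` of the L-series and the
rank are both equal to two over all the fields between `K` and `N`.

**(1) The law.** Let `A ≠ 0` be in `K`, and let `T` be any infinite set of elements of `K`, different from zero and
pairwise different modulo squares. For all `t` and `ε > 0` and all sufficiently large `X`, among the Galois extensions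
`N` of `K` with the Galois group `G` and `|disc N| ≤ X`, the proportion of those which have the property `N` for the
twist `y² = x³ + A δ² x` of `E_A` for at least `t` elements `δ` of `T` is at least `1 - ε`.

For one curve: there is a constant `c > 0`, which depends only on `K` and `G`, such that for every `A ≠ 0` in `K` and
all sufficiently large `X` the proportion of the `N` which have the property `N` for `E_A` is at least `c`. And for
every `A ≠ 0` in `K` there is a constant `c' > 0`, which depends on `A` and `G`, such that for all sufficiently large
`X` the proportion of the `N` which have the property `A` for `E_A` is at least `c'`.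

**(2) The unconditional case of (1).** For every `A ≠ 0` in `K` there is one infinite set `T` as in (1), such that
for every finite abelian group `G` whose exponent divides four, all `t` and `ε > 0` and all sufficiently large `X`, for
at least the proportion `1 - ε` of the `N` as in (1) there are at least `t` elements `δ` of `T` for which `N` has the
property `N` for the twist `y² = x³ + A δ² x` and this twist has the property `S` over every field between `K` and `N`:
over all these fields its L-series is not zero at `1`, the group of its points is finite, and the `q`-part of the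
conjecture holds for almost all `q`.

(The proportion is zero if there are no fields `N` with `|disc N| ≤ X`; so (1) says in particular that there are such
fields for large `X`.) -/
theorem result (K : Type) [Field K] [NumberField K] (hK : Module.finrank ℚ K = 2) (hi : ∃ i : K, i ^ 2 = -1) :
    (∀ (G : Type) [CommGroup G] [Finite G], (∀ x : G, x ^ 4 = 1) →
      (∀ A : K, A ≠ 0 → ∀ T : Set K, T.Infinite → 0 ∉ T →
        (∀ δ ∈ T, ∀ δ' ∈ T, δ ≠ δ' → ¬ IsSquare (δ * δ')) → ∀ (t : ℕ) (ε : ℝ), 0 < ε →
        ∀ᶠ X : ℝ in Filter.atTop, 1 - ε ≤
          (Nat.card {N : IntermediateField K (AlgebraicClosure K) // N ∈ Ext K G ∧ DiscLe N X ∧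
            t ≤ {δ ∈ T | PropN (⟨0, 0, 0, A * δ ^ 2, 0⟩ : WeierstrassCurve K) N}.encard} : ℝ) /
          (Nat.card {N : IntermediateField K (AlgebraicClosure K) // N ∈ Ext K G ∧ DiscLe N X} : ℝ)) ∧
      (∃ c : ℝ, 0 < c ∧ ∀ A : K, A ≠ 0 → ∀ᶠ X : ℝ in Filter.atTop, c ≤
        (Nat.card {N : IntermediateField K (AlgebraicClosure K) // N ∈ Ext K G ∧ DiscLe N X ∧
          PropN (⟨0, 0, 0, A, 0⟩ : WeierstrassCurve K) N} : ℝ) /
        (Nat.card {N : IntermediateField K (AlgebraicClosure K) // N ∈ Ext K G ∧ DiscLe N X} : ℝ)) ∧
      ∀ A : K, A ≠ 0 → ∃ c : ℝ, 0 < c ∧ ∀ᶠ X : ℝ in Filter.atTop, c ≤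
        (Nat.card {N : IntermediateField K (AlgebraicClosure K) // N ∈ Ext K G ∧ DiscLe N X ∧
          PropA (⟨0, 0, 0, A, 0⟩ : WeierstrassCurve K) N} : ℝ) /
        (Nat.card {N : IntermediateField K (AlgebraicClosure K) // N ∈ Ext K G ∧ DiscLe N X} : ℝ)) ∧
    ∀ A : K, A ≠ 0 → ∃ T : Set K, T.Infinite ∧ 0 ∉ T ∧
      (∀ δ ∈ T, ∀ δ' ∈ T, δ ≠ δ' → ¬ IsSquare (δ * δ')) ∧
      ∀ (G : Type) [CommGroup G] [Finite G], (∀ x : G, x ^ 4 = 1) → ∀ (t : ℕ) (ε : ℝ), 0 < ε →
        ∀ᶠ X : ℝ in Filter.atTop, 1 - ε ≤
          (Nat.card {N : IntermediateField K (AlgebraicClosure K) // N ∈ Ext K G ∧ DiscLe N X ∧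
            t ≤ {δ ∈ T | PropN (⟨0, 0, 0, A * δ ^ 2, 0⟩ : WeierstrassCurve K) N ∧
              AllS (⟨0, 0, 0, A * δ ^ 2, 0⟩ : WeierstrassCurve K) N}.encard} : ℝ) /
          (Nat.card {N : IntermediateField K (AlgebraicClosure K) // N ∈ Ext K G ∧ DiscLe N X} : ℝ) :=
  ⟨fun G _ _ hG => ⟨(Pool.Agent.Lib.MP_1a91b9_ntQH.fin_QH K hK hi G hG).1,
      (Pool.Agent.Lib.MP_1a91b9_ntQH.fin_QH K hK hi G hG).2,
      fun A hA => Pool.Agent.Lib.MP_1a91b9_ntQH.fin_A2 K hK hi G hG A hA⟩,
    fun A hA => Pool.Agent.Lib.MP_1a91b9_ntQH.fin_U K hK hi A hA⟩

end Pool.Agent.Results.MP_1a91b9_nt.ExponentFourLaw
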