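import Pool.Agent.Lib.MP_1a91b9_ntRL.Fin5

/-!
# The conjecture of Birch and Swinnerton-Dyer over the multiquadratic fields with restricted ramification

The elliptic curves over a quadratic field `K` with complex multiplication by an order of `K` and with a `K`-rational
point of order two, of any rank, over the extensions `N` of `K` with the Galois group `(ℤ/2)^r` which are unramified
outside `2 A`, for one hundred per cent of the squarefree numbers `A` of `K`; over all the subfields of `N`, their
composites `FN` with a fixed Kummer extension `F` of `K`, and over the fields in the towers above them. For the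
curves with the L-series not zero at `1` over `F`, for example for `y² = x³ + x` over `F = K = ℚ(i)`, the conjecture
itself is proved over all these fields: both sides of Q1 are zero, and the `q`-part of Q2 holds for almost all prime
numbers `q`.
-/

set_option autoImplicit false

namespace Pool.Agent.Results.MP_1a91b9_nt.MultiquadraticLaw

open NumberField IsDedekindDomain Pool.Agent.Lib.MP_1a91b9_nuT.S9 Pool.Agent.Lib.MP_1a91b9_nuT3.S9

/-- The condition on the ramification of `L / F`, for the curve `V` over `F` and the prime number `q`: for every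
place `v` of `F` which ramifies in `L`, if `v` is above `q` then the place of `K` below `v` has the norm `q` (it
is not inert), and if `v` is not above `q` and `V` has good reduction at `v` then `q` does not divide the number
of points of the reduction over `𝓞 F / v`. -/
def RamOK (K : Type) [Field K] [NumberField K] {F : Type} [Field F] [NumberField F] [Algebra K F]
    (V : WeierstrassCurve F) (q : ℕ) (L : Type) [Field L] [NumberField L] [Algebra F L] : Prop :=
  ∀ (v : HeightOneSpectrum (𝓞 F)) (w : HeightOneSpectrum (𝓞 L)),
    v.asIdeal.map (algebraMap (𝓞 F) (𝓞 L)) ≤ w.asIdeal ^ 2 →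
      ((q : 𝓞 F) ∈ v.asIdeal →
        Ideal.absNorm (v.asIdeal.comap (algebraMap (𝓞 K) (𝓞 F))) = q) ∧
      ((q : 𝓞 F) ∉ v.asIdeal → ∀ (V₀ : WeierstrassCurve (𝓞 F))
        (C₀ : WeierstrassCurve.VariableChange F),
        C₀ • V = V₀.map (algebraMap (𝓞 F) F) → V₀.Δ ∉ v.asIdeal →
          ¬ q ∣ Nat.card (V₀.map (Ideal.Quotient.mk v.asIdeal)).toAffine.Point)

open Classical in
/-- The `q`-part of the conjecture in rank zero for the curve `W` over `N`, where all the terms are prime to `q`:
the L-series of `W` over `N` has an entire continuation `g` with `g(1) ≠ 0`, `W(N)` is finite, and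
`g(1) √|D| / Ω = r * #Sha[q^∞] * ∏ c_v / #W(N)²` where `D` is the discriminant of `N`, `Ω` is the period of `W`
and `r` is a rational number whose numerator and denominator are prime to `q`; moreover `#Sha[q^∞] = 1`, and all
the Tamagawa numbers `c_v` and `#W(N)` are prime to `q`. -/
def BSD0 (q : ℕ) [Fact q.Prime] {N : Type} [Field N] [NumberField N] (W : WeierstrassCurve N) : Prop :=
  ∃ g : ℂ → ℂ, Differentiable ℂ g ∧ (∀ s : ℂ, 3 / 2 < s.re → g s = W.LSeries s) ∧
    g 1 ≠ 0 ∧
    (∃ r : ℚ, IsCoprime r.num (q : ℤ) ∧ r.den.Coprime q ∧
      g 1 * (√|(discr N : ℝ)| : ℝ) / (period W : ℝ) =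
        (r * ((Nat.card (ShaP q W) : ℝ) * ((∏ᶠ v : HeightOneSpectrum (𝓞 N), tam W v : ℕ) : ℝ) /
          (Nat.card W.toAffine.Point : ℝ) ^ 2) : ℝ)) ∧
    Nat.card (ShaP q W) = 1 ∧ (∀ v : HeightOneSpectrum (𝓞 N), (tam W v).Coprime q) ∧
    Finite W.toAffine.Point ∧ (Nat.card W.toAffine.Point).Coprime q

open Classical in
/-- The `q`-part of the relative conjecture for the curves `W` over `L` and `W'` over the extension `L'` of `L`
(below `W'` is the base change of `W` to `L'`):

1. the L-series of `W'` is the product of the L-series of `W` and an entire function `g` with `g(1) ≠ 0`;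
2. `g(1) (√|D'| / Ω') = r (√|D| / Ω)` where `D`, `D'` are the discriminants of `L` and `L'`, `Ω`, `Ω'` the periods
   of `W` and `W'`, and `r` is a rational number whose numerator and denominator are prime to `q`;
3. `W(L')` and `W(L)` have the same rank, and the index of `W(L)` in `W(L')` is finite and prime to `q`;
4. all the Tamagawa numbers of `W` and of `W'` are prime to `q`;
5. the `q`-primary parts of the Tate-Shafarevich groups of `W'` and `W` are isomorphic. -/
def RelBSD (q : ℕ) [Fact q.Prime] {L L' : Type} [Field L] [NumberField L] [Field L'] [NumberField L']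
    [Algebra L L'] (W : WeierstrassCurve L) (W' : WeierstrassCurve L') : Prop :=
  (∃ g : ℂ → ℂ, Differentiable ℂ g ∧ g 1 ≠ 0 ∧
    (∀ s : ℂ, 3 / 2 < s.re → W'.LSeries s = W.LSeries s * g s) ∧
    ∃ r : ℚ, (IsCoprime r.num (q : ℤ) ∧ r.den.Coprime q) ∧
      g 1 * ((√|(discr L' : ℝ)| / period W' : ℝ) : ℂ) =
        (r : ℂ) * ((√|(discr L : ℝ)| / period W : ℝ) : ℂ)) ∧
  Module.finrank ℤ W'.toAffine.Point = Module.finrank ℤ W.toAffine.Point ∧
  ((AddSubgroup.closure {P : W'.toAffine.Point | ∃ (x y : L)
    (h : W'.toAffine.Nonsingular (algebraMap L L' x) (algebraMap L L' y)),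
    P = WeierstrassCurve.Affine.Point.some _ _ h}).index).Coprime q ∧
  (∀ v : HeightOneSpectrum (𝓞 L), (tam W v).Coprime q) ∧
  (∀ v : HeightOneSpectrum (𝓞 L'), (tam W' v).Coprime q) ∧
  Nonempty (ShaP q W' ≃+ ShaP q W)

/-- The L-series of the curve `W` over `F` has an entire continuation which is not zero at `1`. -/
def LNonzero {F : Type} [Field F] [NumberField F] (W : WeierstrassCurve F) : Prop :=
  ∃ h : ℂ → ℂ, Differentiable ℂ h ∧ (∀ s : ℂ, 3 / 2 < s.re → h s = W.LSeries s) ∧ h 1 ≠ 0

/-- **The property `Z` of the curve `V` over the extension `F` of `K`**: the L-series of `V` over `F` has an entire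
continuation which is not zero at `1`, and `V(F)` is finite (so both sides of Q1 are zero for `V / F`). Moreover
there is a finite set `S` of prime numbers such that for every prime number `q` not in `S`, every Galois extension
`M` of `F` of degree `q ^ k` and every field `L` between `F` and `M` which satisfies the condition `RamOK` on the
ramification (there is no condition for `L = M = F`) the `q`-part of the conjecture in rank zero holds for every
elliptic curve `W` over a field `N` contained in `L` which becomes isomorphic to `V` over `L` (for example `W = V`,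
`N = L = F`). -/
def PropZ (K : Type) [Field K] [NumberField K] {F : Type} [Field F] [NumberField F] [Algebra K F]
    (V : WeierstrassCurve F) : Prop :=
  LNonzero V ∧ Finite V.toAffine.Point ∧ ∃ S : Finset ℕ, ∀ (q : ℕ) [Fact q.Prime], q ∉ S →
    ∀ (k : ℕ) (L M : Type) [Field L] [NumberField L] [Field M] [NumberField M]
      [Algebra F L] [Algebra L M] [Algebra F M] [IsScalarTower F L M] [IsGalois F M],
      Module.finrank F M = q ^ k → RamOK K V q L →
    ∀ (N : Type) [Field N] [NumberField N] [Algebra N L] (W : WeierstrassCurve N)
      (C : WeierstrassCurve.VariableChange L), C • W.baseChange L = V.baseChange L → BSD0 q W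

/-- The twist of `E : y² = x³ + a₂ x² + a₄ x` by the square root of `e`, over `F`: the curve
`y² = x³ + a₂ e x² + a₄ e² x`. -/
def tw {K : Type} [Field K] (E : WeierstrassCurve K) (F : Type) [Field F] [Algebra K F] (e : K) :
    WeierstrassCurve F :=
  ⟨0, algebraMap K F (E.a₂ * e), 0, algebraMap K F (E.a₄ * e ^ 2), 0⟩

open Classical in
/-- The property (A) of `F' / F` for the curve `E` over `K`: `E(F') = E(F)`, that is, the coordinates of every
point of `E` over `F'` are in `F`. Moreover, if `F = K` and `E` is the curve `y² = x³ + 4 x² + 2 x` (it has complex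
multiplication by `ℤ[√-2]`, so `K = ℚ(√-2)` below) or the curve `y² = x³ - 2 x` (it has complex multiplication by
`ℤ[i]`, so `K = ℚ(i)` below), then the L-series of `E` over `F'` has an entire continuation `h` with a zero of order
two at `1`, and the rank of `E(F')` is two: the order of vanishing and the rank are two. -/
def NoNewPoints {K : Type} [Field K] (E : WeierstrassCurve K) (F F' : Type) [Field F] [Algebra K F]
    [Field F'] [NumberField F'] [Algebra F F'] : Prop :=
  (∀ x' y' : F', ((E.baseChange F).baseChange F').toAffine.Equation x' y' →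
    ∃ x y : F, algebraMap F F' x = x' ∧ algebraMap F F' y = y') ∧
  (Module.finrank K F = 1 → E = ⟨0, 4, 0, 2, 0⟩ ∨ E = ⟨0, 0, 0, -2, 0⟩ →
    (∃ h : ℂ → ℂ, Differentiable ℂ h ∧
      (∀ s : ℂ, 3 / 2 < s.re → h s = ((E.baseChange F).baseChange F').LSeries s) ∧
      analyticOrderAt h 1 = 2) ∧
    Module.finrank ℤ ((E.baseChange F).baseChange F').toAffine.Point = 2)

/-- **The property `R` of `e` in `K`**, for the curve `E` over `K` and the extension `F` of `K`. Let `V` be the
twist `tw E F e` of `E` by the square root of `e`. Then
(1) the curve `V` over `F` has the property `Z`;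
(2) there is a finite set `S` of prime numbers such that for every prime number `q` not in `S`, every Galois
extension `M` of `F` of degree `q ^ k`, every field `L` between `F` and `M` which satisfies the condition `RamOK` on
the ramification for `V` and `q` (there is no condition for `L = M = F`) and every field `L' = L(√e)` the `q`-part of
the relative conjecture holds for `E` over `L` and over `L'`. -/
def PropR {K : Type} [Field K] [NumberField K] (E : WeierstrassCurve K) (F : Type) [Field F]
    [NumberField F] [Algebra K F] (e : K) : Prop :=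
  PropZ K (tw E F e) ∧
  ∃ S : Finset ℕ, ∀ (q : ℕ) [Fact q.Prime], q ∉ S →
    ∀ (k : ℕ) (L M : Type) [Field L] [NumberField L] [Field M] [NumberField M]
      [Algebra F L] [Algebra L M] [Algebra F M] [IsScalarTower F L M] [IsGalois F M],
      Module.finrank F M = q ^ k → RamOK K (tw E F e) q L →
    ∀ (L' : Type) [Field L'] [NumberField L'] [Algebra L L'] (y : L'),
      y ^ 2 = algebraMap L L' (algebraMap F L (algebraMap K F e)) →
      IntermediateField.adjoin L {y} = ⊤ →
      RelBSD q ((E.baseChange F).baseChange L) (((E.baseChange F).baseChange L).baseChange L')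

/-- **The property `M` of the extension `N` of `K`**, for the curve `E` over `K` and the extension `F` of `K`: every
composite `M = FN` of `F` and `N` has the degree `[N : K]` over `F`, and for every field `F'` between `F` and `M` the
following holds.

1. `E(F') = E(F)`, in the form of the property (A) above.
2. The L-series of `E` over `F'` is the product of the L-series of `E` over `F` and an entire function `g` with
   `g(1) ≠ 0`.
3. If the L-series of `E` over `F` has an entire continuation which is not zero at `1`, or if `F = K` and `E` is the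
   curve `y² = x³ + x` (then `K = ℚ(i)` below), then `E` over `F'` has the property `Z`.
4. For every field `F''` between `F'` and `M` different from `F'` there is a finite set `S` of prime numbers such
   that for every prime number `q` not in `S` the `q`-part of the relative conjecture holds for `E` over `F'` and
   over `F''`.
5. Every element `e` of `K` which is a square in `N` and not a square in `F'` has the property `R` over `F'`, that
   is, with `F'` in the place of `F`. -/
def PropM {K : Type} [Field K] [NumberField K] (E : WeierstrassCurve K) (F : Type) [Field F]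
    [NumberField F] [Algebra K F] (N : Type) [Field N] [Algebra K N] : Prop :=
  ∀ (M : Type) [Field M] [NumberField M] [Algebra K M] [Algebra F M] [IsScalarTower K F M]
    [Algebra N M] [IsScalarTower K N M],
    IntermediateField.adjoin F (Set.range (algebraMap N M)) = ⊤ →
    Module.finrank F M = Module.finrank K N ∧
    ∀ (F' : Type) [Field F'] [NumberField F'] [Algebra K F'] [Algebra F F'] [IsScalarTower K F F']
      [Algebra F' M] [IsScalarTower F F' M],
      NoNewPoints E F F' ∧
      (∃ g : ℂ → ℂ, Differentiable ℂ g ∧ g 1 ≠ 0 ∧ ∀ s : ℂ, 3 / 2 < s.re →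
        (E.baseChange F').LSeries s = (E.baseChange F).LSeries s * g s) ∧
      (LNonzero (E.baseChange F) ∨ (Module.finrank K F = 1 ∧ E = ⟨0, 0, 0, 1, 0⟩) →
        PropZ K (E.baseChange F')) ∧
      (∀ (F'' : Type) [Field F''] [NumberField F''] [Algebra F F''] [Algebra F' F'']
        [IsScalarTower F F' F''] [Algebra F'' M] [IsScalarTower F' F'' M],
        Module.finrank F' F'' ≠ 1 →
        ∃ S : Finset ℕ, ∀ (q : ℕ) [Fact q.Prime], q ∉ S →
          RelBSD q (E.baseChange F') ((E.baseChange F').baseChange F'')) ∧
      ∀ e : K, (∃ x : N, x ^ 2 = algebraMap K N e) → (¬ ∃ y : F', y ^ 2 = algebraMap K F' e) →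
        PropR E F' e

/-- The Galois extensions of `K` in the algebraic closure of `K` with the Galois group `(ℤ/2)^r`. -/
def Ext (K : Type) [Field K] (r : ℕ) : Set (IntermediateField K (AlgebraicClosure K)) :=
  {N | IsGalois K N ∧ Nonempty ((N ≃ₐ[K] N) ≃* Multiplicative (Fin r → ZMod 2))}

/-- The extension `N` of `K` is unramified outside `2 A`: it is a number field, and if a place `v` of `K` ramifies in
`N` (that is, `v` is divisible by the square of a place `w` of `N`) then `v` divides `2 A`. -/
def Unr {K : Type} [Field K] [NumberField K] (A : 𝓞 K)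
    (N : IntermediateField K (AlgebraicClosure K)) : Prop :=
  ∃ _ : NumberField N, ∀ (v : HeightOneSpectrum (𝓞 K)) (w : HeightOneSpectrum (𝓞 N)),
    v.asIdeal.map (algebraMap (𝓞 K) (𝓞 N)) ≤ w.asIdeal ^ 2 → 2 * A ∈ v.asIdeal

open Classical in
/-- The constant `c`: it is `∏ (1 + 1 / 2 ^ (i + 1))⁻¹ = 0.419...` if `2` is ramified in `K`,
`∏ (1 - 1 / 2 ^ (i + 1)) = 0.288...` if `2` splits, and if `2` is inert it is
`c₁ = ∏ (1 + 1 / 2 ^ (2 i + 1))⁻¹ = 0.568...`, or `√(c₁ / 2) = 0.533...` if `√-1` is in `F`. -/
noncomputable def cst (K F : Type) [Field K] [NumberField K] [Field F] : ℝ :=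
  if Prime (2 : 𝓞 K) then (if ∃ x : F, x ^ 2 = -1 then
      √((∏' i : ℕ, (1 + 1 / (2 : ℝ) ^ (2 * i + 1))⁻¹) / 2) else
      ∏' i : ℕ, (1 + 1 / (2 : ℝ) ^ (2 * i + 1))⁻¹) else
    if Squarefree (2 : 𝓞 K) then ∏' i : ℕ, (1 - 1 / (2 : ℝ) ^ (i + 1)) else
    ∏' i : ℕ, (1 + 1 / (2 : ℝ) ^ (i + 1))⁻¹

open Classical in
/-- Let `K` be a quadratic number field and `O` its ring of integers. Let `E : y² = x³ + a₂ x² + a₄ x` be an
elliptic curve over `K` which has complex multiplication by an order of `K`: its invariant `j` is one of the 13
rational invariants of curves with complex multiplication and `√D` is in `K`, where `D` belongs to `j`. Up to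
isomorphism over `K` these are the elliptic curves over `K` with complex multiplication by an order of `K` and with a
`K`-rational point of order two. For `δ ≠ 0` in `K` let `E^δ` be the curve `tw E K δ`, that is,
`y² = x³ + a₂ δ x² + a₄ δ² x`; `E^1 = E`.

Let `F` be a number field which is generated over `K` by square roots of elements of `K`, or by fourth roots if `i` is
in `K` (for example `F = K`).

The property `M` of an extension `N` of `K` for one of the curves `E^δ` is `PropM` above (with `E^δ` in the place
of `E`): `FN` has the degree `[N : K]` over `F`; for every field `F'` between `F` and `FN` we have `E(F') = E(F)`,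
and the L-series of `E` over `F'` is that of `E` over `F` times an entire function which is not zero at `1`; if
the L-series of `E` over `F` is not zero at `1` (for example, and without any hypothesis, if `E` is `y² = x³ + x` and
`F = K = ℚ(i)`) then `E` over `F'` has the property `Z`: the L-series of `E` over `F'` is entire and not zero at `1`,
`E(F')` is finite (both sides of Q1 are zero), and for almost all prime numbers `q` the `q`-part of Q2 holds for `E`
over `F'` and in the towers over `F'` described there; if `F = K` and `E` is `y² = x³ + 4 x² + 2 x` (`K = ℚ(√-2)`) or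
`y² = x³ - 2 x` (`K = ℚ(i)`) then the order of vanishing at `1` and the rank over `F'` are both two, unconditionally;
for all fields `F' ≠ F''` between, `F'` in `F''`, the `q`-part of the relative conjecture holds for `E` over `F'` and
`F''` for almost all prime numbers `q`; and every element `e` of `K` which is a square in `N` but not in `F'` has the
property `R` over `F'`: the twist of `E` by the square root of `e` has the property `Z` over `F'`, and for all prime
numbers `q` outside a finite set and all the fields `L` in the towers over `F'` described there (for example `L = F'`)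
the `q`-part of the relative conjecture holds for `E` over `L` and over `L(√e)`.

Let `r` be a natural number. Let `T` be a finite or infinite set of elements `δ ≠ 0` of `K`. If `T` is infinite then
suppose that `δ / δ'` is not a square in `K` for `δ ≠ δ'` in `T` (so the curves `E^δ`, `δ` in `T`, are pairwise different
quadratic twists of `E`). If `T` is finite then suppose that none of `± δ / δ'`, `± a₄ δ / δ'` is a square in `F` for
`δ ≠ δ'` in `T` (for `T = {1}` this is no condition). Let `t` be a positive integer. Let `m` divide a power of `2` and let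
`u` be in `O` such that `m` and `u` are not both divisible by the square of a prime element (`m = 1` gives all the
numbers `A` below).

**The law for almost all sets of ramified primes.** For every `ε > 0` and all sufficiently large `X`, among the
squarefree `A` in `O` of norm at most `X` with `A ≡ u` modulo `m` the proportion of those with the following property
is at least `1 - ε`: among all the Galois extensions `N` of `K` in the algebraic closure of `K` with the Galois group
`(ℤ/2)^r` which are unramified outside `2 A` (a finite set, it is not empty if `A` has at least `r` prime divisors)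
the share of those which have the property `M` for at least `t` of the curves `E^δ`, `δ` in `T`, is at least `v - ε`.
Here `v = 1` if `T` is infinite: for almost every `A` this is the case for almost all the fields `N` unramified outside
`2 A`. If `T` is finite then `v` is the probability of at least `t` successes in `#T` independent trials with the
probability `c ^ ((2 ^ r - 1) [F : K])` each, where `c` is the constant `cst` above; for `T = {1}` and `t = 1` it is
`c ^ ((2 ^ r - 1) [F : K])`. -/
theorem result (K : Type) [Field K] [NumberField K] (hK : Module.finrank ℚ K = 2)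
    (E : WeierstrassCurve K) (hE : E.a₁ = 0 ∧ E.a₃ = 0 ∧ E.a₆ = 0) (hΔ : E.Δ ≠ 0) (j D : ℤ)
    (hjD : (j, D) ∈ [(0, -3), (54000, -3), (-12288000, -3), (1728, -4), (287496, -4), (-3375, -7),
      (16581375, -7), (8000, -8), (-32768, -11), (-884736, -19), (-884736000, -43),
      (-147197952000, -67), (-262537412640768000, -163)])
    (hj : E.c₄ ^ 3 = j * E.Δ) (hD : ∃ s : K, s ^ 2 = D)
    (l : ℕ) (hl : l = 2 ∨ l = 4 ∧ ∃ i : K, i ^ 2 = -1)
    (F : Type) [Field F] [NumberField F] [Algebra K F]
    (hF : IntermediateField.adjoin K {x : F | ∃ c : K, x ^ l = algebraMap K F c} = ⊤) (r : ℕ)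
    (T : Set K) (h0 : 0 ∉ T)
    (hT : T.Infinite → ∀ δ ∈ T, ∀ δ' ∈ T, δ ≠ δ' → ∀ x : K, x ^ 2 * δ' ≠ δ)
    (hT' : T.Finite → ∀ δ ∈ T, ∀ δ' ∈ T, δ ≠ δ' → ∀ e ∈ ({1, -1, E.a₄, -E.a₄} : Set K), ∀ x : F,
      x ^ 2 * algebraMap K F δ' ≠ algebraMap K F (e * δ))
    (n : ℕ) (m u : 𝓞 K) (hm : m ∣ 2 ^ n) (hu : ∀ q, Prime q → ¬ (q ^ 2 ∣ m ∧ q ^ 2 ∣ u)) (t : ℕ)
    (ht : 0 < t) (v : ℝ)
    (hv : v = if T.Infinite then 1 else ∑ j ∈ Finset.Icc t T.ncard, (T.ncard.choose j : ℝ) *
      (cst K F ^ ((2 ^ r - 1) * Module.finrank K F)) ^ j *
        (1 - cst K F ^ ((2 ^ r - 1) * Module.finrank K F)) ^ (T.ncard - j))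
    (ε : ℝ) (hε : 0 < ε) :
    ∀ᶠ X : ℝ in Filter.atTop, 1 - ε ≤
      (Nat.card {A : 𝓞 K // (Squarefree A ∧ m ∣ A - u ∧ |Algebra.norm ℤ A| ≤ X) ∧
        (v - ε) * (Nat.card {N // N ∈ Ext K r ∧ Unr A N} : ℝ) ≤
          Nat.card {N // N ∈ Ext K r ∧ Unr A N ∧ t ≤ {δ ∈ T | PropM (tw E K δ) F N}.encard}} : ℝ) /
        (Nat.card {A : 𝓞 K // Squarefree A ∧ m ∣ A - u ∧ |Algebra.norm ℤ A| ≤ X} : ℝ) :=
  Pool.Agent.Lib.MP_1a91b9_ntRL.fin_ram5 K hK E hE hΔ j D hjD hj hD l hl F hF r T h0 hT hT' n m u hm hu t ht
    v hv ε hε

end Pool.Agent.Results.MP_1a91b9_nt.MultiquadraticLaw
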