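import Pool.Agent.Lib.MP_1a91b9_ntO.Tow

/-!
# The conjecture of Birch and Swinnerton-Dyer modulo `p` for all elliptic curves over quadratic fields with
complex multiplication and an equation `y² + a₃ y = x³ + a₂ x² + a₄ x`, `a_i = 0` unless `p` divides `i`, and for a
positive proportion of them its `p`-part and the conjecture up to finitely many primes, also over towers of fields
-/

set_option autoImplicit false

namespace Pool.Agent.Results.MP_1a91b9_nt.PartAllCM

open NumberField WeierstrassCurve Pool.Agent.Lib.MP_1a91b9_ntO
open Pool.Agent.Lib.MP_1a91b9_ntI (Fr)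
open Pool.Agent.Lib.MP_1a91b9_ntS (BSDMod)

open Classical in
/-- Let `p` be a prime number and `K` a quadratic field with ring of integers `O`. Let `CMp p` be the class of the
elliptic curves over `K` with complex multiplication by `O` which are isomorphic over `K` to
`y² + a₃ y = x³ + a₂ x² + a₄ x` where `a_i = 0` unless `p` divides `i` (so `(0, 0)` is a point of order `p`; for
`p = 2` this is any `K`-rational point of order two, for `p = 3` it is a `K`-rational point of order three on a
curve with `j = 0`, and there is no such curve for `p > 3`). The class is not empty if and only if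
`(p, disc K)` is `(2, -3)`, `(2, -4)`, `(2, -7)`, `(2, -8)` or `(3, -3)`. Let this be so and let `w = 4` if
`disc K = -4`, and `w = p` otherwise. Then there are `a₂`, `a₃`, `a₄` in `O`, with `a_i = 0` unless `w` divides `i`,
and a map `f : O → ℚ` with the following properties.
(1) The curves of the class are the curves isomorphic over `K` to
`W_D : y² + a₃ D^{3/w} y = x³ + a₂ D^{2/w} x² + a₄ D^{4/w} x`, for the `D` in `O` which are not divisible by the
`w`-th power of a prime; `W_D` and `W_D'` are isomorphic over `K` if and only if `D' = u^w D` for a unit `u`.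
(2) For every curve `W` isomorphic to `W_D` the L-series of `W` has an entire continuation `g`,
`g(1) √|disc K| / Ω = f(D) * ∏ c_v / #W(K)[p^∞]²`, `p` does not divide the denominator of `f(D)`, and `p` does not
divide its numerator if and only if `W(K)` is finite and `Sha[p^∞] = 0`.
(3) If `p` does not divide the numerator of `f(D)` then for every curve `W` isomorphic to `W_D` the conjecture holds
up to finitely many primes, with both sides of Q1 zero, and also over towers of fields: there is a finite set `S` of
prime numbers such that for every prime number `q` not in `S`, every Galois extension `M` of `K` of degree `q ^ j`,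
every field `L` between `K` and `M`, every field `N` contained in `L` and every Weierstrass curve `V` over `N` which
becomes isomorphic to `W` over `L` the following holds. Suppose for every place `v` of `K` which ramifies in `L`: if
`v` is above `q` then its norm is `q`, if `v` is not above `q` and `W` has good reduction at `v` then `q` does not
divide the number of points of the reduction. Then the L-series of `V` over `N` has an entire continuation `h` with
`h(1) ≠ 0`, `V(N)` is finite, `h(1) √|disc N| / Ω = r * #Sha[q^∞] * ∏ c_v / #V(N)²` where `r` is a rational number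
whose numerator and denominator are prime to `q`, and `#Sha[q^∞] = 1`, all the `c_v` and `#V(N)` are prime to `q`.
(For `N = L = M = K`, `V = W` there is no condition on the ramification.)
(4) For all `n`, all `m` dividing `p^n` and all `u` in `O` such that no `w`-th power of a prime divides both
`m` and `u` (`m = 1` gives all the curves), the proportion of the `D` with numerator of `f(D)` prime to `p` among
those with `D ≡ u` modulo `m` and norm at most `X` tends to `c` for `X → ∞`, where `c = ∏ (1 + p^-i)⁻¹` over
the odd `i ≥ 1` if `p` is inert, `c = ∏ (1 - p^-i)` over the `i ≥ 1` if `p` splits, and `c = ∏ (1 + p^-i)⁻¹` over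
the `i ≥ 1` if `p` ramifies in `K`.

So for this proportion of all the curves of the class Q1 holds with both sides zero, and Q2 holds in its `p`-part and
in its `q`-part for all but finitely many prime numbers `q`; and over all these fields `N` Q1 holds for the curves `V`
with both sides zero, and Q2 in its `q`-part. -/
theorem result (p : ℕ) [Fact p.Prime] (K : Type) [Field K] [NumberField K]
    (h2 : Module.finrank ℚ K = 2) :
    ((∃ W : WeierstrassCurve K, CMp p W) ↔
      (p, discr K) ∈ [((2 : ℕ), (-3 : ℤ)), (2, -4), (2, -7), (2, -8), (3, -3)]) ∧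
    ((∃ W : WeierstrassCurve K, CMp p W) → ∃ (a₂ a₃ a₄ : 𝓞 K) (w : ℕ) (c : ℝ) (f : 𝓞 K → ℚ),
      (w = if discr K = -4 then 4 else p) ∧
      (¬ w ∣ 2 → a₂ = 0) ∧ (¬ w ∣ 3 → a₃ = 0) ∧ (¬ w ∣ 4 → a₄ = 0) ∧
      (c = if Prime (p : 𝓞 K) then ∏' i : ℕ, (1 + 1 / (p : ℝ) ^ (2 * i + 1))⁻¹ else
        if Squarefree (p : 𝓞 K) then ∏' i : ℕ, (1 - 1 / (p : ℝ) ^ (i + 1)) else
        ∏' i : ℕ, (1 + 1 / (p : ℝ) ^ (i + 1))⁻¹) ∧
      (∀ W : WeierstrassCurve K, CMp p W ↔
        ∃ D : 𝓞 K, Fr K w D ∧ ∃ C : VariableChange K, C • W = fam K w a₂ a₃ a₄ D) ∧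
      (∀ D D' : 𝓞 K, Fr K w D → Fr K w D' →
        ((∃ C : VariableChange K, C • fam K w a₂ a₃ a₄ D = fam K w a₂ a₃ a₄ D') ↔
          ∃ u : 𝓞 K, IsUnit u ∧ D' = u ^ w * D)) ∧
      (∀ (D : 𝓞 K) (W : WeierstrassCurve K) (C : VariableChange K), Fr K w D →
        C • W = fam K w a₂ a₃ a₄ D → BSDMod p W (f D) ∧ (¬ (p : ℤ) ∣ (f D).num → Tow W)) ∧
      ∀ (n : ℕ) (m u : 𝓞 K), m ∣ (p : 𝓞 K) ^ n →
        (∀ π : 𝓞 K, Prime π → ¬ (π ^ w ∣ m ∧ π ^ w ∣ u)) →
        Filter.Tendsto (fun X : ℝ =>
          (Nat.card {D : 𝓞 K // Fr K w D ∧ m ∣ D - u ∧ |Algebra.norm ℤ D| ≤ X ∧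
            ¬ (p : ℤ) ∣ (f D).num} : ℝ) /
          (Nat.card {D : 𝓞 K // Fr K w D ∧ m ∣ D - u ∧ |Algebra.norm ℤ D| ≤ X} : ℝ))
          Filter.atTop (nhds c)) :=
  main_allpt p K h2

end Pool.Agent.Results.MP_1a91b9_nt.PartAllCM
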